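import Pool.Agent.Helper73.RF.GoalsA

/-!
MP_c98eff_gt, project RF, packet ALG1: the Jacobi identities `V,H,H` and `H,H,H`.
-/

set_option autoImplicit false

open Finset

namespace Pool.Agent.Helper27.RF

open Pool.Agent.Helper73.RF

variable {T : ℝ} (F : FBD T)

/-- the right hand side of the bracket `[H_{c+1}, H_{c+2}]` -/
def Bc (c : Fin 3) (f : F.B) : F.B := ∑ j, F.M c j * F.V j f

theorem hh12 (hF : F.Base) (f : F.B) :
    Bc F 0 f = F.H 1 (F.H 2 f) - F.H 2 (F.H 1 f) := by
  rw [hF.HH 1 2 f]; simp [Bc, eps, Fin.sum_univ_three]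

theorem hh20 (hF : F.Base) (f : F.B) :
    Bc F 1 f = F.H 2 (F.H 0 f) - F.H 0 (F.H 2 f) := by
  rw [hF.HH 2 0 f]; simp [Bc, eps, Fin.sum_univ_three]

theorem hh01 (hF : F.Base) (f : F.B) :
    Bc F 2 f = F.H 0 (F.H 1 f) - F.H 1 (F.H 0 f) := by
  rw [hF.HH 0 1 f]; simp [Bc, eps, Fin.sum_univ_three]

section VHs

theorem v0h0 (hF : F.Base) (f : F.B) : F.V 0 (F.H 0 f) = F.H 0 (F.V 0 f) := by
  have := hF.VH 0 0 f
  simp [eps, Fin.sum_univ_three] at this
  linear_combination this

theorem v0h1 (hF : F.Base) (f : F.B) : F.V 0 (F.H 1 f) = F.H 1 (F.V 0 f) + F.H 2 f := by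
  have := hF.VH 0 1 f
  simp [eps, Fin.sum_univ_three] at this
  linear_combination this

theorem v0h2 (hF : F.Base) (f : F.B) : F.V 0 (F.H 2 f) = F.H 2 (F.V 0 f) - F.H 1 f := by
  have := hF.VH 0 2 f
  simp [eps, Fin.sum_univ_three] at this
  linear_combination this

theorem v1h0 (hF : F.Base) (f : F.B) : F.V 1 (F.H 0 f) = F.H 0 (F.V 1 f) - F.H 2 f := by
  have := hF.VH 1 0 f
  simp [eps, Fin.sum_univ_three] at this
  linear_combination this

theorem v1h1 (hF : F.Base) (f : F.B) : F.V 1 (F.H 1 f) = F.H 1 (F.V 1 f) := by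
  have := hF.VH 1 1 f
  simp [eps, Fin.sum_univ_three] at this
  linear_combination this

theorem v1h2 (hF : F.Base) (f : F.B) : F.V 1 (F.H 2 f) = F.H 2 (F.V 1 f) + F.H 0 f := by
  have := hF.VH 1 2 f
  simp [eps, Fin.sum_univ_three] at this
  linear_combination this

theorem v2h0 (hF : F.Base) (f : F.B) : F.V 2 (F.H 0 f) = F.H 0 (F.V 2 f) + F.H 1 f := by
  have := hF.VH 2 0 f
  simp [eps, Fin.sum_univ_three] at this
  linear_combination this

theorem v2h1 (hF : F.Base) (f : F.B) : F.V 2 (F.H 1 f) = F.H 1 (F.V 2 f) - F.H 0 f := by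
  have := hF.VH 2 1 f
  simp [eps, Fin.sum_univ_three] at this
  linear_combination this

theorem v2h2 (hF : F.Base) (f : F.B) : F.V 2 (F.H 2 f) = F.H 2 (F.V 2 f) := by
  have := hF.VH 2 2 f
  simp [eps, Fin.sum_univ_three] at this
  linear_combination this

theorem v01 (hF : F.Base) (f : F.B) : F.V 0 (F.V 1 f) = F.V 1 (F.V 0 f) + F.V 2 f := by
  have := hF.VV 0 1 f
  simp [eps, Fin.sum_univ_three] at this
  linear_combination this

theorem v02 (hF : F.Base) (f : F.B) : F.V 0 (F.V 2 f) = F.V 2 (F.V 0 f) - F.V 1 f := by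
  have := hF.VV 0 2 f
  simp [eps, Fin.sum_univ_three] at this
  linear_combination this

theorem v12 (hF : F.Base) (f : F.B) : F.V 1 (F.V 2 f) = F.V 2 (F.V 1 f) + F.V 0 f := by
  have := hF.VV 1 2 f
  simp [eps, Fin.sum_univ_three] at this
  linear_combination this

end VHs

/-- the bracket of `V_k` and `B_c` -/
theorem vb (hF : F.Base) (k c : Fin 3) (f : F.B) :
    F.V k (Bc F c f) = Bc F c (F.V k f) + ∑ d, eps k c d • Bc F d f := by
  fin_cases k <;> fin_cases c <;>
    simp only [Fin.zero_eta, Fin.mk_one, Fin.reduceFinMk, Fin.isValue, hh12 F hF, hh20 F hF,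
      hh01 F hF, map_sub, map_add, v0h0 F hF, v0h1 F hF, v0h2 F hF, v1h0 F hF, v1h1 F hF,
      v1h2 F hF, v2h0 F hF, v2h1 F hF, v2h2 F hF, Fin.sum_univ_three] <;>
    simp [eps] <;> ring

/-- the family of coefficients -/
theorem vm (hF : F.Base) (k c j : Fin 3) :
    F.V k (F.M c j) = ∑ a, (eps k c a • F.M a j + eps k j a • F.M c a) := by
  have key := hF.ind (fun _ => 0)
    (fun j => F.V k (F.M c j) - ∑ a, (eps k c a • F.M a j + eps k j a • F.M c a)) (by
    intro f
    have h := vb F hF k c f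
    simp only [Bc, Fin.sum_univ_three, map_add, Derivation.leibniz, smul_eq_mul] at h ⊢
    fin_cases k <;> fin_cases c <;>
      simp [eps, v01 F hF, v02 F hF, v12 F hF] at h ⊢ <;>
      linear_combination h)
  exact sub_eq_zero.1 (key.2 j)

/-- packet ALG1 -/
theorem alg1 : Alg1Stmt := by
  intro T F hF
  have key := hF.ind
    (fun b => ∑ c, ∑ j, -(eps j c b • F.M c j))
    (fun j => ∑ i, F.H i (F.M i j)) (by
    intro f
    have h : F.H 0 (Bc F 0 f) + F.H 1 (Bc F 1 f) + F.H 2 (Bc F 2 f)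
        = Bc F 0 (F.H 0 f) + Bc F 1 (F.H 1 f) + Bc F 2 (F.H 2 f) := by
      simp only [hh12 F hF, hh20 F hF, hh01 F hF, map_sub]
      ring
    simp only [Bc, Fin.sum_univ_three, map_add, Derivation.leibniz, smul_eq_mul, v0h0 F hF,
      v0h1 F hF, v0h2 F hF, v1h0 F hF, v1h1 F hF, v1h2 F hF, v2h0 F hF, v2h1 F hF,
      v2h2 F hF] at h ⊢
    simp [eps]
    linear_combination h)
  refine ⟨?_, vm F hF, fun j => key.2 j⟩
  have k0 := key.1 0
  have k1 := key.1 1
  have k2 := key.1 2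
  simp [eps, Fin.sum_univ_three] at k0 k1 k2
  have e01 : F.M 0 1 = F.M 1 0 := by linear_combination k2
  have e02 : F.M 0 2 = F.M 2 0 := by linear_combination -k1
  have e12 : F.M 1 2 = F.M 2 1 := by linear_combination k0
  intro i j
  fin_cases i <;> fin_cases j <;>
    first
      | rfl
      | exact e01
      | exact e01.symm
      | exact e02
      | exact e02.symm
      | exact e12
      | exact e12.symm

end Pool.Agent.Helper27.RF
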