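import Pool.Agent.Helper73.RF.GoalsE
import Pool.Agent.Helper5.RF.C2
import Pool.Agent.Helper93.RF.JSM

/-!
MP_c98eff_gt, project RF, packet BWR: ring properties of `BW`.
-/

set_option autoImplicit false

open Finset Pool.Agent.Helper47.RF Pool.Agent.Helper73.RF

namespace Pool.Agent.Helper27.RF

open Pool.Agent.Helper5.RF

/-- slices of a jointly smooth family are smooth -/
theorem sm_of_JS {T : ℝ} {u : ℝ → HH → ℝ} (hu : JS T u) {t : ℝ} (h0 : 0 < t) (hT : t < T) :
    Sm (u t) := by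
  refine ⟨?_, hu.hom t h0 hT⟩
  have h1 : ContDiff ℝ ((⊤ : ℕ∞) : WithTop ℕ∞) (fun x : HH => (x, t)) :=
    contDiff_id.prodMk contDiff_const
  exact hu.cd.comp h1.contDiffOn (fun x hx => ⟨hx, h0, hT⟩)

/-- smooth slices -/
def SS1 (T : ℝ) (u : ℝ → HH → ℝ) : Prop := ∀ t, 0 < t → t < T → Sm (u t)

theorem SS1.E {T : ℝ} {u : ℝ → HH → ℝ} (h : SS1 T u) (i : Fin 3) : SS1 T (fun t => E i (u t)) :=
  fun t h0 hT => Pool.Agent.Helper93.RF.Jsm.Sm_E (h t h0 hT) i

theorem Ew_append (w : List (Fin 3)) (i : Fin 3) (f : HH → ℝ) :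
    Ew (w ++ [i]) f = Ew w (E i f) := by
  induction w with
  | nil => rfl
  | cons j w ih =>
    show E j (Ew (w ++ [i]) f) = E j (Ew w (E i f))
    rw [ih]

theorem Ew_add {f h : HH → ℝ} (hf : Sm f) (hh : Sm h) (w : List (Fin 3)) :
    Ew w (fun x => f x + h x) = fun x => Ew w f x + Ew w h x := by
  induction w with
  | nil => rfl
  | cons j w ih =>
    funext x
    show E j (Ew w (fun x => f x + h x)) x = E j (Ew w f) x + E j (Ew w h) x
    rw [ih]
    exact E_add (Pool.Agent.Helper93.RF.Jsm.Sm_Ew hf w) (Pool.Agent.Helper93.RF.Jsm.Sm_Ew hh w)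

theorem Ew_neg (f : HH → ℝ) (w : List (Fin 3)) :
    Ew w (fun x => -f x) = fun x => -Ew w f x := by
  induction w with
  | nil => rfl
  | cons j w ih =>
    funext x
    show E j (Ew w (fun x => -f x)) x = -E j (Ew w f) x
    rw [ih]
    exact E_neg

theorem Ew_const (c : ℝ) (w : List (Fin 3)) : ∃ c' : ℝ, Ew w (fun _ => c) = fun _ => c' := by
  induction w with
  | nil => exact ⟨c, rfl⟩
  | cons j w ih =>
    obtain ⟨c', hc⟩ := ih
    refine ⟨0, ?_⟩
    funext x
    show E j (Ew w (fun _ => c)) x = 0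
    rw [hc]
    unfold Pool.Agent.Helper47.RF.E
    simp

theorem BW.mono {T : ℝ} {m n : ℕ} {u : ℝ → HH → ℝ} (h : BW T n u) (hmn : m ≤ n) : BW T m u :=
  fun w hw => h w (hw.trans hmn)

theorem bw_add {T : ℝ} {m : ℕ} {u v : ℝ → HH → ℝ} (su : SS1 T u) (sv : SS1 T v)
    (hu : BW T m u) (hv : BW T m v) : BW T m (fun t x => u t x + v t x) := by
  intro w hw
  obtain ⟨C, hC⟩ := hu w hw
  obtain ⟨D, hD⟩ := hv w hw
  refine ⟨C + D, fun t h0 hT x hx => ?_⟩
  rw [Ew_add (su t h0 hT) (sv t h0 hT)]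
  exact (abs_add_le _ _).trans (add_le_add (hC t h0 hT x hx) (hD t h0 hT x hx))

theorem bw_neg {T : ℝ} {m : ℕ} {u : ℝ → HH → ℝ} (hu : BW T m u) :
    BW T m (fun t x => -u t x) := by
  intro w hw
  obtain ⟨C, hC⟩ := hu w hw
  refine ⟨C, fun t h0 hT x hx => ?_⟩
  rw [Ew_neg, abs_neg]
  exact hC t h0 hT x hx

theorem bw_succ {T : ℝ} {m : ℕ} {u : ℝ → HH → ℝ} (h0 : BW T 0 u)
    (h : ∀ i, BW T m (fun t => E i (u t))) : BW T (m + 1) u := by
  intro w hw
  rcases List.eq_nil_or_concat w with rfl | ⟨w', i, rfl⟩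
  · exact h0 [] le_rfl
  · have hl : w'.length ≤ m := by
      rw [List.concat_eq_append, List.length_append] at hw
      simpa using hw
    obtain ⟨C, hC⟩ := h i w' hl
    refine ⟨C, fun t h0 hT x hx => ?_⟩
    rw [List.concat_eq_append, Ew_append]
    exact hC t h0 hT x hx

theorem bw_E {T : ℝ} {m : ℕ} {u : ℝ → HH → ℝ} (h : BW T (m + 1) u) (i : Fin 3) :
    BW T m (fun t => E i (u t)) := by
  intro w hw
  obtain ⟨C, hC⟩ := h (w ++ [i]) (by simpa using hw)
  refine ⟨C, fun t h0 hT x hx => ?_⟩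
  have := hC t h0 hT x hx
  rwa [Ew_append] at this

theorem bw_mul {T : ℝ} (m : ℕ) : ∀ {u v : ℝ → HH → ℝ}, SS1 T u → SS1 T v →
    BW T m u → BW T m v → BW T m (fun t x => u t x * v t x) := by
  have base : ∀ {u v : ℝ → HH → ℝ}, BW T 0 u → BW T 0 v → BW T 0 (fun t x => u t x * v t x) := by
    intro u v hu hv w hw
    have hw0 : w = [] := List.length_eq_zero_iff.1 (Nat.le_zero.1 hw)
    subst hw0
    obtain ⟨C, hC⟩ := hu [] le_rfl
    obtain ⟨D, hD⟩ := hv [] le_rfl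
    refine ⟨C * D, fun t h0 hT x hx => ?_⟩
    show |u t x * v t x| ≤ C * D
    rw [abs_mul]
    have h1 : |u t x| ≤ C := hC t h0 hT x hx
    have h2 : |v t x| ≤ D := hD t h0 hT x hx
    exact mul_le_mul h1 h2 (abs_nonneg _) ((abs_nonneg _).trans h1)
  induction m with
  | zero => intro u v _ _ hu hv; exact base hu hv
  | succ m ih =>
    intro u v su sv hu hv
    refine bw_succ (base (BW.mono hu (Nat.zero_le _)) (BW.mono hv (Nat.zero_le _))) fun i => ?_
    have h1 := ih (su.E i) sv (bw_E hu i) (BW.mono hv (Nat.le_succ m))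
    have h2 := ih su (sv.E i) (BW.mono hu (Nat.le_succ m)) (bw_E hv i)
    -- slices of products are smooth
    have smul : ∀ {f h : HH → ℝ}, Sm f → Sm h → Sm (fun x => f x * h x) := by
      intro f h hf hh
      exact ⟨hf.cd.mul hh.cd, fun r x hr => by rw [hf.hom r x hr, hh.hom r x hr]⟩
    have h3 := bw_add (fun t h0 hT => smul (su.E i t h0 hT) (sv t h0 hT))
      (fun t h0 hT => smul (su t h0 hT) (sv.E i t h0 hT)) h1 h2
    intro w hw
    obtain ⟨C, hC⟩ := h3 w hw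
    refine ⟨C, fun t h0 hT x hx => ?_⟩
    have e1 : E i (fun x => u t x * v t x) = fun x => E i (u t) x * v t x + u t x * E i (v t) x := by
      funext x
      exact E_mul (su t h0 hT) (sv t h0 hT)
    show |Ew w (E i (fun x => u t x * v t x)) x| ≤ C
    rw [e1]
    exact hC t h0 hT x hx

/-- packet BWR -/
theorem bwr : BwrStmt := by
  intro T m u v ju jv
  have su : SS1 T u := fun t h0 hT => sm_of_JS ju h0 hT
  have sv : SS1 T v := fun t h0 hT => sm_of_JS jv h0 hT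
  refine ⟨fun hu hv => ⟨bw_mul m su sv hu hv, bw_add su sv hu hv, bw_neg hu⟩, ?_,
    fun h0 h => bw_succ h0 h, fun h i => bw_E h i⟩
  intro c w _
  obtain ⟨c', hc⟩ := Ew_const c w
  exact ⟨|c'|, fun t _ _ x _ => by rw [hc]⟩

end Pool.Agent.Helper27.RF
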