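import Pool.Agent.Helper73.RF.GoalsC

/-!
MP_c98eff_gt, project RF, packet FRA: first identities of the moving frame.
-/

set_option autoImplicit false

open Finset

namespace Pool.Agent.Helper27.RF

open Pool.Agent.Helper73.RF

section

variable {𝒜 : Type} [CommRing 𝒜] [Algebra ℝ 𝒜]

theorem eps_swap (a b c : Fin 3) : eps b a c = -eps a b c := by
  fin_cases a <;> fin_cases b <;> fin_cases c <;> simp [eps]

/-- an antisymmetric matrix through its axial vector -/
theorem axial (X : Fin 3 → Fin 3 → 𝒜) (hX : ∀ c d, X c d = -X d c) (c d : Fin 3) :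
    X c d = ∑ l, eps c d l • ((1 / 2 : ℝ) • ∑ a, ∑ b, eps a b l • X a b) := by
  have h2 : ∀ c, X c c = 0 := by
    intro c
    have h := hX c c
    have : (2 : ℝ) • X c c = 0 := by
      rw [two_smul]; nth_rewrite 1 [h]; exact neg_add_cancel _
    have h3 : X c c = (1 / 2 : ℝ) • ((2 : ℝ) • X c c) := by rw [smul_smul]; norm_num
    rw [h3, this, smul_zero]
  have hh : ∀ x y : 𝒜, (1 / 2 : ℝ) • (x + x) = x := by
    intro x _
    rw [← two_smul ℝ x, smul_smul]; norm_num
  have h10 := hX 1 0
  have h20 := hX 2 0
  have h21 := hX 2 1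
  fin_cases c <;> fin_cases d <;>
    simp only [Fin.zero_eta, Fin.mk_one, Fin.reduceFinMk, Fin.isValue, Fin.sum_univ_three, h2, h10,
      h20, h21] <;>
    simp [eps] <;>
    module

end

/-- packet FRA -/
theorem fra : FraStmt := by
  intro 𝒜 _ _ E A θ hF
  -- `E` through `F`
  have hE : ∀ i f, E i f = ∑ a, θ i a * FR.Fd E A a f := by
    intro i f
    simp only [FR.Fd, Finset.mul_sum]
    rw [Finset.sum_comm]
    have : ∀ j, ∑ a, θ i a * (A a j * E j f) = (if i = j then 1 else 0) * E j f := by
      intro j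
      rw [← hF.tA i j, Finset.sum_mul]
      exact Finset.sum_congr rfl fun a _ => by ring
    rw [Finset.sum_congr rfl fun j _ => this j]
    simp
  -- antisymmetry of `C`
  have hC : ∀ a b c, FR.C E A θ a b c = -FR.C E A θ b a c := by
    intro a b c
    simp only [FR.C]
    rw [← Finset.sum_neg_distrib]
    refine Finset.sum_congr rfl fun j _ => ?_
    have : ∑ i, ∑ k, eps i k j • (A a i * A b k) = -∑ i, ∑ k, eps i k j • (A b i * A a k) := by
      rw [Finset.sum_comm, ← Finset.sum_neg_distrib]
      refine Finset.sum_congr rfl fun i _ => ?_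
      rw [← Finset.sum_neg_distrib]
      refine Finset.sum_congr rfl fun k _ => ?_
      rw [eps_swap i k j, neg_smul, mul_comm]
    rw [this, smul_neg]
    ring
  have hFF : ∀ a b f, FR.Fd E A a (FR.Fd E A b f) - FR.Fd E A b (FR.Fd E A a f)
      = ∑ c, FR.C E A θ a b c * FR.Fd E A c f := by
    intro a b f
    have e1 : ∀ a b, FR.Fd E A a (FR.Fd E A b f)
        = ∑ j, FR.Fd E A a (A b j) * E j f + ∑ i, ∑ j, A a i * A b j * E i (E j f) := by
      intro a b
      simp only [FR.Fd, map_sum, Derivation.leibniz, smul_eq_mul, Finset.sum_mul, Finset.mul_sum]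
      rw [Finset.sum_comm (s := univ) (t := univ) (f := fun j i => A a i * (E i) (A b j) * (E j) f),
        ← Finset.sum_add_distrib]
      refine Finset.sum_congr rfl fun i _ => ?_
      rw [← Finset.sum_add_distrib]
      refine Finset.sum_congr rfl fun j _ => ?_
      ring
    have e2 : ∑ i, ∑ j, A a i * A b j * E i (E j f) - ∑ i, ∑ j, A b i * A a j * E i (E j f)
        = ∑ j, ((2 : ℝ) • ∑ i, ∑ k, eps i k j • (A a i * A b k)) * E j f := by
      have e3 : ∑ i, ∑ j, A b i * A a j * E i (E j f) = ∑ i, ∑ j, A a i * A b j * E j (E i f) := by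
        rw [Finset.sum_comm]
        exact Finset.sum_congr rfl fun i _ => Finset.sum_congr rfl fun j _ => by ring
      rw [e3, ← Finset.sum_sub_distrib]
      have e4 : ∀ i, ∑ j, A a i * A b j * E i (E j f) - ∑ j, A a i * A b j * E j (E i f)
          = ∑ j, ∑ k, (2 : ℝ) • (eps i j k • (A a i * A b j)) * E k f := by
        intro i
        rw [← Finset.sum_sub_distrib]
        refine Finset.sum_congr rfl fun j _ => ?_
        rw [← mul_sub, hF.EE, Finset.smul_sum, Finset.mul_sum]
        refine Finset.sum_congr rfl fun k _ => ?_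
        simp only [Algebra.smul_def]
        ring
      rw [Finset.sum_congr rfl fun i _ => e4 i]
      rw [Finset.sum_congr rfl fun i _ => Finset.sum_comm, Finset.sum_comm]
      refine Finset.sum_congr rfl fun k _ => ?_
      simp only [Finset.smul_sum, Finset.sum_mul]
    have e5 : ∀ j, E j f = ∑ c, θ j c * FR.Fd E A c f := fun j => hE j f
    calc FR.Fd E A a (FR.Fd E A b f) - FR.Fd E A b (FR.Fd E A a f)
        = ∑ j, (FR.Fd E A a (A b j) - FR.Fd E A b (A a j)
            + (2 : ℝ) • ∑ i, ∑ k, eps i k j • (A a i * A b k)) * E j f := by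
          rw [e1 a b, e1 b a]
          simp only [add_mul, sub_mul, Finset.sum_add_distrib, Finset.sum_sub_distrib]
          rw [← e2]
          ring
      _ = ∑ j, ∑ c, (FR.Fd E A a (A b j) - FR.Fd E A b (A a j)
            + (2 : ℝ) • ∑ i, ∑ k, eps i k j • (A a i * A b k)) * θ j c * FR.Fd E A c f := by
          refine Finset.sum_congr rfl fun j _ => ?_
          rw [e5 j, Finset.mul_sum]
          exact Finset.sum_congr rfl fun c _ => by ring
      _ = ∑ c, FR.C E A θ a b c * FR.Fd E A c f := by
          rw [Finset.sum_comm]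
          refine Finset.sum_congr rfl fun c _ => ?_
          rw [FR.C, Finset.sum_mul]
  have hG : ∀ a b c, FR.Gam E A θ a b c = -FR.Gam E A θ a c b := by
    intro a b c
    simp only [FR.Gam]
    rw [hC c b a, hC a c b, hC b a c, hC b c a]
    module
  have hGo : ∀ a b c, FR.Gam E A θ a b c = ∑ k, eps k b c • FR.om E A θ a k := by
    intro a b c
    have h := axial (FR.Gam E A θ a) (hG a) b c
    rw [h]
    refine Finset.sum_congr rfl fun k _ => ?_
    have c1 : eps b c k = eps k b c := by
      fin_cases b <;> fin_cases c <;> fin_cases k <;> simp [eps]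
    rw [c1, FR.om]
    congr 2
    refine Finset.sum_congr rfl fun d _ => Finset.sum_congr rfl fun e _ => ?_
    have c2 : eps d e k = eps k d e := by
      fin_cases d <;> fin_cases e <;> fin_cases k <;> simp [eps]
    rw [c2]
  have hCG : ∀ a b c, FR.C E A θ a b c = FR.Gam E A θ a b c - FR.Gam E A θ b a c := by
    intro a b c
    simp only [FR.Gam]
    rw [hC b a c, hC c b a, hC a c b]
    module
  have hOa : ∀ k c d, FR.Om E A θ c d k = -FR.Om E A θ d c k := by
    intro k c d
    simp only [FR.Om]
    have h1 : ∑ l, ∑ m, eps l m k • (FR.om E A θ c l * FR.om E A θ d m)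
        = -∑ l, ∑ m, eps l m k • (FR.om E A θ d l * FR.om E A θ c m) := by
      rw [Finset.sum_comm, ← Finset.sum_neg_distrib]
      refine Finset.sum_congr rfl fun l _ => ?_
      rw [← Finset.sum_neg_distrib]
      refine Finset.sum_congr rfl fun m _ => ?_
      rw [eps_swap l m k, neg_smul, mul_comm]
    have h2 : ∑ e, FR.C E A θ c d e * FR.om E A θ e k
        = -∑ e, FR.C E A θ d c e * FR.om E A θ e k := by
      rw [← Finset.sum_neg_distrib]
      exact Finset.sum_congr rfl fun e _ => by rw [hC c d e]; ring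
    rw [h1, h2]
    ring
  have hO : ∀ c d k, FR.Om E A θ c d k = -∑ l, eps c d l • FR.N E A θ l k := by
    intro c d k
    have h := axial (fun c d => FR.Om E A θ c d k) (hOa k) c d
    rw [h, ← Finset.sum_neg_distrib]
    refine Finset.sum_congr rfl fun l _ => ?_
    rw [FR.N, ← smul_neg, ← neg_smul, neg_neg]
  exact ⟨hFF, hC, hG, hGo, hCG, hO, hE⟩

end Pool.Agent.Helper27.RF
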